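import Pool.Agent.H960.IS.Stm

/-!
Project IS (helper960), part SHARP, by helper764: exponential decay of the magnetisation in boxes.
-/

set_option autoImplicit false

open MeasureTheory Filter Topology Finset H960FV H960IS

namespace Pool.Agent.H764.IS

theorem tanh_nonneg' {x : ℝ} (hx : 0 ≤ x) : 0 ≤ Real.tanh x := by
  rw [Real.tanh_eq_sinh_div_cosh]
  exact div_nonneg (Real.sinh_nonneg_iff.2 hx) (Real.cosh_pos x).le

theorem tanh_pos' {x : ℝ} (hx : 0 < x) : 0 < Real.tanh x := by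
  rw [Real.tanh_eq_sinh_div_cosh]
  exact div_pos (Real.sinh_pos_iff.2 hx) (Real.cosh_pos x)

theorem un_mem {d : ℕ} (i : Fin d) : (un i : Z d) ∈ bx d 1 := by
  rw [mem_bx]
  intro j
  unfold un
  by_cases h : j = i
  · subst h; simp
  · simp [Pi.single_eq_of_ne h]

theorem exists_box {d : ℕ} (S : Finset (Z d)) : ∃ R : ℕ, ∀ x ∈ S, x ∈ bx d R := by
  refine ⟨S.sup fun x => ∑ i, (x i).natAbs, fun x hx => ?_⟩
  rw [mem_bx]
  intro i
  have h1 : (x i).natAbs ≤ ∑ j, (x j).natAbs :=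
    Finset.single_le_sum (f := fun j => (x j).natAbs) (fun _ _ => Nat.zero_le _) (mem_univ i)
  have h2 : ∑ j, (x j).natAbs ≤ S.sup fun x => ∑ i, (x i).natAbs :=
    Finset.le_sup (f := fun x : Z d => ∑ i, (x i).natAbs) hx
  have h3 : (|x i| : ℤ) = ((x i).natAbs : ℤ) := Int.abs_eq_natAbs _
  rw [h3]
  exact_mod_cast h1.trans h2

/-- the ends of the bonds which touch `S` -/
theorem ends {d : ℕ} {S : Finset (Z d)} {R : ℕ} (hR : ∀ x ∈ S, x ∈ bx d R) {e : Z d × Fin d}
    (he : e ∈ Ed S) : e.1 ∈ bx d (R + 1) ∧ e.1 + un e.2 ∈ bx d (R + 1) := by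
  unfold Ed at he
  rcases Finset.mem_union.1 he with he | he
  · have h1 := hR e.1 (Finset.mem_product.1 he).1
    exact ⟨bx_mono (Nat.le_succ R) h1, bx_add h1 (un_mem e.2)⟩
  · obtain ⟨f, hf, rfl⟩ := Finset.mem_image.1 he
    have h1 := hR f.1 (Finset.mem_product.1 hf).1
    refine ⟨bx_sub h1 (un_mem f.2), ?_⟩
    simp only [sub_add_cancel]
    exact bx_mono (Nat.le_succ R) h1

theorem mag_mem {d : ℕ} (h6 : S_link1) (h7 : S_gks) {β : ℝ} (hβ : 0 ≤ β) (Λ : Finset (Z d))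
    (y : Z d) : 0 ≤ mag β Λ y ∧ mag β Λ y ≤ 1 := by
  rw [h6 d β Λ y]
  have h := h7 (Option ↥Λ) ↥(Ed Λ) (pL Λ) (qL Λ) (fun _ => β) (fun _ => hβ)
    (symmDiff {vL Λ y} {none}) ∅
  exact ⟨h.1, h.2.1⟩

/-- comparison with a smaller box -/
theorem mag_le {d : ℕ} (h4 : S_magmono) (h5 : S_magtrans) {β : ℝ} (hβ : 0 ≤ β) {K L : ℕ}
    (hKL : K ≤ L) {y : Z d} (hy : y ∈ bx d K) :
    mag β (bx d L) y ≤ mag β (bx d (L - K)) 0 := by
  have h1 : ((bx d (L - K)).image fun x => x + y) ⊆ bx d L := by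
    intro z hz
    obtain ⟨x, hx, rfl⟩ := Finset.mem_image.1 hz
    have h2 := bx_add hx hy
    rwa [Nat.sub_add_cancel hKL] at h2
  have h2 := h4 d β _ _ y hβ h1
  have h3 := h5 d β (bx d (L - K)) y 0
  rw [zero_add] at h3
  rwa [h3] at h2

theorem sharp (h1 : S_B1) (h2 : S_B2) (h3 : S_B4) (h4 : S_magmono) (h5 : S_magtrans)
    (h6 : S_link1) (h7 : S_gks) : S_sharp := by
  intro d β β' hβ hββ' hno
  have ht : 0 ≤ Real.tanh β := tanh_nonneg' hβ
  set c0 : ℝ := 1 / (2 * (Real.tanh β + 1)) with hc0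
  have hc0pos : 0 < c0 := by positivity
  have hS : ∃ S : Finset (Z d), (0 : Z d) ∈ S ∧ psi β S < c0 := by
    by_contra hcon
    push Not at hcon
    obtain ⟨L, hL⟩ := hno (Real.tanh (c0 * (β' - β)))
      (tanh_pos' (mul_pos hc0pos (by linarith)))
    have h8 := h1 d β β' c0 (bx d L) hc0pos.le hβ hββ'.le zero_mem_bx
      (fun b hb _ S _ h0 => (hcon S h0).trans (h2 d β b S hβ hb h0))
    linarith
  obtain ⟨S, h0S, hpsi⟩ := hS
  obtain ⟨R, hR⟩ := exists_box S
  obtain ⟨K, hK⟩ : ∃ K : ℕ, K = R + 1 := ⟨_, rfl⟩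
  have hKpos : (0 : ℝ) < K := by
    rw [hK]; positivity
  have step : ∀ L : ℕ, K ≤ L → mag β (bx d L) 0 ≤ mag β (bx d (L - K)) 0 / 2 := by
    intro L hL
    have hM := (mag_mem h6 h7 hβ (bx d (L - K)) 0).1
    have hle : ∀ y ∈ bx d K, mag β (bx d L) y ≤ mag β (bx d (L - K)) 0 :=
      fun y hy => mag_le h4 h5 hβ hL hy
    obtain ⟨a1, a2⟩ := h3 d β (mag β (bx d (L - K)) 0) (bx d L) S hβ
      (fun x hx => bx_mono (by omega) (hR x hx)) h0S
      (fun e he => Or.inl (hle _ (by rw [hK]; exact (ends hR he).1)))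
      (fun e he => Or.inl (hle _ (by rw [hK]; exact (ends hR he).2)))
    have a3 : Real.tanh β * psi β S ≤ 1 / 2 := by
      have a4 : Real.tanh β * psi β S ≤ Real.tanh β * c0 := mul_le_mul_of_nonneg_left hpsi.le ht
      have a5 : Real.tanh β * c0 ≤ 1 / 2 := by
        rw [hc0, mul_one_div, div_le_div_iff₀ (by positivity) (by norm_num)]
        linarith
      exact a4.trans a5
    have a6 := mul_le_mul_of_nonneg_right a3 hM
    linarith
  refine ⟨2, Real.log 2 / K, div_pos (Real.log_pos one_lt_two) hKpos, ?_⟩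
  intro L
  induction L using Nat.strong_induction_on with
  | _ L ih =>
    by_cases hL : K ≤ L
    · have b1 := step L hL
      have b2 := ih (L - K) (by omega)
      have b3 : Real.exp (-(Real.log 2 / K) * ((L - K : ℕ) : ℝ)) =
          2 * Real.exp (-(Real.log 2 / K) * L) := by
        rw [Nat.cast_sub hL]
        have e1 : -(Real.log 2 / K) * ((L : ℝ) - K) =
            Real.log 2 + -(Real.log 2 / K) * L := by
          field_simp
          ring
        rw [e1, Real.exp_add, Real.exp_log two_pos]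
      rw [b3] at b2
      linarith
    · have b1 := (mag_mem h6 h7 hβ (bx d L) 0).2
      have b2 : (1 : ℝ) / 2 ≤ Real.exp (-(Real.log 2 / K) * L) := by
        rw [← Real.log_le_iff_le_exp (by norm_num), one_div, Real.log_inv]
        have b3 : (L : ℝ) ≤ K := by exact_mod_cast (not_le.1 hL).le
        have b4 : Real.log 2 / K * L ≤ Real.log 2 := by
          rw [div_mul_eq_mul_div, div_le_iff₀ hKpos]
          exact mul_le_mul_of_nonneg_left b3 (Real.log_pos one_lt_two).le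
        linarith
      linarith

end Pool.Agent.H764.IS
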